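import Pool.Agent.FUR.Defs

/-!
# Frege + universal reduction with prescribed premises of the ∀-reductions (MP_a6aa4e_lc)

Definition used in the final statement of the squad FU2.  The other definitions (`PF`, `QBF`, `Rule`,
`QPar`) are in `Pool.Agent.FUR.Defs`.
-/

set_option autoImplicit false

namespace Pool.Agent.FU2

open Pool.Agent.FUR

/-- `RefP Φ R P Λ k` : `Λ` (last line first) is a sequence of formulas in which every formula is a
clause of the matrix of `Φ`, or follows from earlier formulas by a rule of `R`, or is obtained by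
`∀`-reduction from an earlier formula `L` that is equivalent to a formula of `P` (in particular:
from a formula of `P`). As in the problem, the variable `u` is universal and the rightmost variable
of `L`, and the substituted formula `B` contains only variables to the left of `u`; the size of `B`
is not restricted. There are exactly `k` `∀`-reductions. There is no restriction on the other
formulas. -/
inductive RefP (Φ : QBF) (R : Set Rule) (P : Finset PF) : List PF → ℕ → Prop
  | nil : RefP Φ R P [] 0
  | clause {Λ : List PF} {k : ℕ} (h : RefP Φ R P Λ k) (c : List (ℕ × Bool)) (hc : c ∈ Φ.mat) :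
      RefP Φ R P (clF c :: Λ) k
  | rule {Λ : List PF} {k : ℕ} (h : RefP Φ R P Λ k) (r : Rule) (hr : r ∈ R) (τ : ℕ → PF)
      (hp : ∀ p ∈ r.prem, p.sub τ ∈ Λ) : RefP Φ R P (r.conc.sub τ :: Λ) k
  | red {Λ : List PF} {k : ℕ} (h : RefP Φ R P Λ k) (L : PF) (hL : L ∈ Λ) (u : ℕ) (hu : Φ.Univ u)
      (hin : u ∈ L.vars) (hlast : ∀ v ∈ L.vars, v ≤ u) (B : PF) (hB : ∀ v ∈ B.vars, v < u)
      (L' : PF) (hP : L' ∈ P) (he : ∀ σ : ℕ → Bool, L'.eval σ = L.eval σ) :
      RefP Φ R P (L.sub1 u B :: Λ) (k + 1)

end Pool.Agent.FU2
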