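import Pool.Agent.FUR.Stmts

/-!
# Squad FU2 (MP_a6aa4e_lc): exponential and sharp form of squad FUR

THEOREM.  There is `c > 0` such that for all `n ≥ 1` and `s ≥ |QPar n|` every refutation of the
parity formula `QPar n` in Frege + ∀red (any sound rules) in which the `∀`-reductions are applied to
formulas with at most `s` symbols (and substitute formulas with at most `s` symbols) contains at
least `2^(c |QPar n|² / s) / 2` `∀`-reductions; no restriction on the other formulas and inferences.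
For `s = |Φ|^(2-ε)` this is `2^(c |Φ|^ε)`.  It is sharp up to `c` (row UPP).

PLAN.  (1) Fourier tails of De Morgan formulas (OBL LIT FML): if `f` has a formula with `ℓ` leaves then
`∑_S e^(2κ|S|) f^(S)² ≤ e^(κ² ℓ)` for every `κ > 0`: multiplication by a literal has norm `cosh κ` for the
weighted norm; conjunction: product; negation: an oblique projection `P` and `1 - P` have the same norm.
(2) So few derivatives of order `q` of `f` are nonzero (NQB), and there is a subcube of dimension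
`k = 5q` on which all given functions have degree `< q` (GR2, DGR), if `q ≤ c n² / ℓ` (NU2).
(3) The first test which is not identically true on the subcube gives a contradiction (DL2).

Delivery: `Pool/Agent/HelperNN_FU2/X.lean`, `import Pool.Agent.FU2.Stmts`,
namespace `Pool.Agent.FU2.HNN`, `theorem x (hypotheses) : XStmt`.
-/

set_option autoImplicit false

open Finset

namespace Pool.Agent.FU2

open Pool.Agent.FUR

variable {N : ℕ}

/-- real functions on the cube -/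
abbrev RF (N : ℕ) : Type := (Fin N → Bool) → ℝ

/-- the values 0, 1 of a Boolean function -/
def ind (f : BF N) : RF N := fun x => if f x then 1 else 0

/-- character -/
def ch (S : Finset (Fin N)) : RF N := fun x => ∏ v ∈ S, if x v then (-1 : ℝ) else 1

/-- Fourier coefficient -/
noncomputable def fc (g : RF N) (S : Finset (Fin N)) : ℝ := (∑ x, g x * ch S x) / 2 ^ N

/-- the square of the weighted norm -/
noncomputable def wn (t : ℝ) (g : RF N) : ℝ :=
  ∑ S : Finset (Fin N), t ^ (2 * S.card) * fc g S ^ 2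

/-- the bits in `J` are flipped -/
def fS (x : Fin N → Bool) (J : Finset (Fin N)) : Fin N → Bool := fun v =>
  if v ∈ J then !(x v) else x v

/-- the derivative along `I` -/
def dv (I : Finset (Fin N)) (g : RF N) : RF N := fun x =>
  ∑ J ∈ I.powerset, (-1 : ℝ) ^ J.card * g (fS x J)

open Classical in
/-- the number of pairs `(x, I)` with `|I| = q` and a nonzero derivative along `I` at `x` -/
noncomputable def Nq (q : ℕ) (f : BF N) : ℕ :=
  ∑ x : Fin N → Bool, ((powersetCard q (univ : Finset (Fin N))).filter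
    fun I => dv I (ind f) x ≠ 0).card

/-! ## A. Fourier tails -/

/-- **PRS** (80 lines).  Parseval and inversion.
PROOF.  `∑_S ch S x * ch S y = ∏_v (1 + ε_v(x) ε_v(y)) = 2^N` if `x = y`, `0` otherwise
(`Finset.prod_one_add` or `Finset.prod_add`, `ε_v(x) = -1` if `x v`, else `1`); expand
`fc g S ^ 2 = 4^(-N) ∑_{x,y} g x g y ch S x ch S y`, exchange the sums. -/
def PRSStmt : Prop := ∀ (N : ℕ) (g : RF N),
  (∑ S : Finset (Fin N), fc g S ^ 2 = (∑ x, g x ^ 2) / 2 ^ N) ∧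
  ∀ x, g x = ∑ S : Finset (Fin N), fc g S * ch S x

/-- **OBL** (60 lines).  Negation.
PROOF.  `u = ind f * g`, `w = (1 - ind f) * g`, `u + w = g`, `ind f * u = u`, `ind f * w = 0`; `wn t` is a
quadratic form (`fc` is linear) with the bilinear form `B(u,w) = ∑ t^(2|S|) fc u S fc w S`;
`a = wn t u`, `b = wn t w`.  If `a = 0`, all `fc u S = 0` (`t > 0`), so `wn t g = b ≤ C b`.  If `b = 0`
the claim is `0 ≤ C wn t g`.  Otherwise let `λ² = b / a`, `g' = λ u + λ⁻¹ w`: `ind f * g' = λ u`,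
`wn t g' = λ² a + λ⁻² b + 2 B(u,w) = b + a + 2 B(u,w) = wn t g` and `wn t (ind f * g') = λ² a = b`. -/
def OBLStmt : Prop := ∀ (N : ℕ) (f : BF N) (t C : ℝ), 0 < t → 1 ≤ C →
  (∀ g : RF N, wn t (fun x => ind f x * g x) ≤ C * wn t g) →
  ∀ g : RF N, wn t (fun x => (1 - ind f x) * g x) ≤ C * wn t g

/-- **LIT** (80 lines).  Literals.
PROOF.  `ind (x v = b) = (1 ± ch {v}) / 2`, so the Fourier coefficients of the product are
`(fc g S ± fc g (S ∆ {v})) / 2` (`ch {v} * ch S = ch (S ∆ {v})`).  Pair `S ∌ v` with `insert v S`; with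
`a = fc g S`, `b = fc g (insert v S)`, `w = t^(2|S|)` the two terms are
`w (a ± b)²/4 + w t² (a ± b)²/4 = w (1 + t²) (a ± b)² / 4`, and
`(a ± b)² ≤ (1 + t⁻²) (a² + t² b²)` (Cauchy-Schwarz: `(a ± b)² = (1·a ± t⁻¹·(t b))²`), and
`(1 + t²)(1 + t⁻²) / 4 = ((t + t⁻¹)/2)²`. -/
def LITStmt : Prop := ∀ (N : ℕ) (v : Fin N) (b : Bool) (t : ℝ) (g : RF N), 0 < t →
  wn t (fun x => ind (fun x => x v == b) x * g x) ≤ ((t + t⁻¹) / 2) ^ 2 * wn t g

/-- **FML** (60 lines; uses OBL LIT).  Formulas.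
PROOF.  Induction on `F` for all `g`; `C = ((t + t⁻¹)/2)^2 ≥ 1`.  Constants: the product is `g` or `0`.
`and G H`: `ind (G ∧ H) g = ind G (ind H g)`.  `or G H`: `1 - ind (G ∨ H) = (1 - ind G)(1 - ind H)`;
by OBL and the induction hypotheses multiplication with it has the constant `C^(G.lv) C^(H.lv)`; so
again by OBL (for the Boolean function `not (G ∨ H)`) the same holds for `ind (G ∨ H)`. -/
def FMLStmt : Prop := ∀ (N : ℕ) (F : Fm (Fin N)) (t : ℝ) (g : RF N), 0 < t →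
  wn t (fun x => ind (fun x => F.ev x) x * g x) ≤ (((t + t⁻¹) / 2) ^ 2) ^ F.lv * wn t g

/-- **TAL** (40 lines; uses FML).  The tail bound.
PROOF.  FML for `g = 1`: `fc 1 ∅ = 1`, `fc 1 S = 0` otherwise (`∑_x ch S x = ∏ over the coordinates`,
or pair `x` with `x` flipped at a point of `S`), so `wn t 1 = 1`.  `t = exp κ`: `(t + t⁻¹)/2 = cosh κ ≤
exp (κ²/2)` (`Real.cosh_le_exp_half_sq`), `F.lv ≤ s`. -/
def TALStmt : Prop := ∀ (N : ℕ) (f : BF N) (s : ℕ) (κ : ℝ), LC f s → 0 < κ →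
  ∑ S : Finset (Fin N), Real.exp (2 * κ * S.card) * fc (ind f) S ^ 2 ≤ Real.exp (κ ^ 2 * s)

/-! ## B. Derivatives -/

/-- **DRF** (80 lines).  Fourier coefficients of a derivative.
PROOF.  `ch S (fS x J) = (-1)^|S ∩ J| ch S x`; `x ↦ fS x J` is an involution, so
`fc (g ∘ fS · J) S = (-1)^|S ∩ J| fc g S`.  `∑_{J ⊆ I} (-1)^|J| (-1)^|S ∩ J| = ∏_{i ∈ I} (1 - (-1)^[i ∈ S])`
(`Finset.prod_one_add`, `Finset.prod_add`, or induction on `I`), which is `2^|I|` if `I ⊆ S`, else `0`. -/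
def DRFStmt : Prop := ∀ (N : ℕ) (I : Finset (Fin N)) (g : RF N) (S : Finset (Fin N)),
  fc (dv I g) S = if I ⊆ S then 2 ^ I.card * fc g S else 0

/-- **NQB** (120 lines; uses PRS TAL DRF).  Few nonzero derivatives.
PROOF.  `dv I (ind f) x` is an integer, so `[dv ≠ 0] ≤ dv²`.  For fixed `I`, `|I| = q`:
`∑_x (dv I (ind f) x)² = 2^N ∑_S fc (dv I (ind f)) S ^ 2 = 2^N 4^q ∑_{S ⊇ I} fc (ind f) S ^ 2` (PRS, DRF).
Sum over `I`: every `S` contains `C(|S|, q)` sets `I`; `C(m, q) ≤ m^q/q! ≤ exp (2κm) / (2κ)^q`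
(`Nat.choose_le_pow_div`, `Real.pow_div_factorial_le_exp`).  With TAL:
`Nq ≤ 2^N 4^q (2κ)^(-q) exp (κ² s) = 2^N (2/κ)^q exp (κ² s)`. -/
def NQBStmt : Prop := ∀ (N q s : ℕ) (f : BF N) (κ : ℝ), LC f s → 0 < κ →
  (Nq q f : ℝ) ≤ 2 ^ N * ((2 / κ) ^ q * Real.exp (κ ^ 2 * s))

/-- **GR2** (120 lines).  Existence of a good subcube (compare GRS of FUR, `Helper76_FUR`).
PROOF.  For a set `K` with `k` elements let `b_j(K)` be the number of `z` for which some `I ⊆ K`,
`|I| = q` has `dv I (ind (F j)) z ≠ 0`.  If `2^k ∑_j b_j(K) < 2^N` for some `K`, there is a good `ρ`: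
every bad `ρ` has a bad `z = ov K ρ x`, and every `z` is `ov K ρ x` (some `x`) for exactly `2^k` many
`ρ` (those which agree with `z` outside `K`).  If there is no such `K`, sum over all `K`:
`2^N C(N,k) ≤ 2^k ∑_K ∑_j ∑_z #{I ⊆ K | dv ≠ 0} = 2^k C(N-q, k-q) ∑_j Nq q (F j)`.
Multiply the hypothesis by `C(N-q, k-q)` and use `C(N,k) C(k,q) = C(N,q) C(N-q,k-q)`
(`Nat.choose_mul`), `C(k,q) > 0`. -/
def GR2Stmt : Prop := ∀ (N k q M : ℕ) (F : Fin M → BF N), k ≤ N → q ≤ k →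
  2 ^ k * k.choose q * ∑ j, Nq q (F j) < 2 ^ N * N.choose q →
  ∃ (K : Finset (Fin N)) (ρ : Fin N → Bool), K.card = k ∧
    ∀ j x (I : Finset (Fin N)), I ⊆ K → I.card = q → dv I (ind (F j)) (ov K ρ x) = 0

/-- **DGR** (70 lines; uses DRF).  The degree on the subcube.
PROOF.  `g' x = g (ov K ρ x)`.  If `i ∉ K`, `ov K ρ (fS x {i}) = ov K ρ x`, so `dv {i} g' = 0` and DRF
gives `fc g' S = 0` for `i ∈ S`.  If `S ⊆ K` and `q ≤ |S|` take `I ⊆ S` with `q` elements: for `J ⊆ I`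
`ov K ρ (fS x J) = fS (ov K ρ x) J`, so `dv I g' x = dv I g (ov K ρ x) = 0` and `fc g' S = 0`. -/
def DGRStmt : Prop := ∀ (N q : ℕ) (g : RF N) (K : Finset (Fin N)) (ρ : Fin N → Bool),
  (∀ x (I : Finset (Fin N)), I ⊆ K → I.card = q → dv I g (ov K ρ x) = 0) →
  ∀ S : Finset (Fin N), fc (fun x => g (ov K ρ x)) S ≠ 0 → S ⊆ K ∧ S.card < q

/-- **CNV** (60 lines; uses PRS).  The degree of a product.
PROOF.  `fc (g * h) S = ∑_T fc g T * fc h (S ∆ T)` (inversion for `g`, `ch T * ch S = ch (S ∆ T)`); if this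
is not zero there is `T` with `|T| ≤ a`, `|S ∆ T| ≤ b`, and `S ⊆ T ∪ (S ∆ T)`. -/
def CNVStmt : Prop := ∀ (N a b : ℕ) (g h : RF N),
  (∀ S : Finset (Fin N), fc g S ≠ 0 → S.card ≤ a) →
  (∀ S : Finset (Fin N), fc h S ≠ 0 → S.card ≤ b) →
  ∀ S : Finset (Fin N), fc (fun x => g x * h x) S ≠ 0 → S.card ≤ a + b

/-! ## C. Decision lists for parity -/

/-- **PRK** (60 lines).  Parity on the subcube.
PROOF.  `(-1)^(px σ i) = ∏_{l < i} ±1` by induction, so the left side is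
`ch univ (ov K ρ x) = ch K x * ch Kᶜ ρ` (split the product over `univ` in `K` and `Kᶜ`); `c = ch Kᶜ ρ`. -/
def PRKStmt : Prop := ∀ (n : ℕ) (K : Finset (Fin n)) (ρ : Fin n → Bool), ∃ c : ℝ, c ^ 2 = 1 ∧
  ∀ x : Fin n → Bool, (if par (ov K ρ x) then (-1 : ℝ) else 1) = c * ch K x

/-- **DL2** (120 lines; uses DGR CNV PRK).  No decision list with tests
`if B j x then T1 j x else T0 j x` and outputs `B j` computes parity, if all functions have degree at most
`r` on a subcube of dimension `k > 5r`.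
PROOF.  For every `x` there is `j` with test value false at `ov K ρ x` (`0 < 2^N` points exist); let `j` be
the least index for which the test `j` is false at some point `x₀` of the subcube.  On the subcube
(functions `x ↦ f (ov K ρ x)`, all Fourier coefficients of the three functions of `j` are in degree
`≤ r` by DGR) let `g = 1 - (ind B * ind T1 + (1 - ind B) * ind T0)`, degree `≤ 2r` (CNV), values 0, 1,
`g = 1` iff the test `j` is false.  If `g x = 1`, the index given by the hypothesis at `ov K ρ x` must be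
`j` (a smaller one has a true test on the whole subcube, a larger one requires the test `j` to be true),
so `B j = par` there.  So `h = g * (1 - 2 ind B)` (degree `≤ 3r`) equals `c * g * ch K` (PRK) and
`g * h * (c * ch K) = g`; hence `∑_x g x = c 2^N fc (g * h) K = 0`, because `g * h` has degree
`≤ 5r < |K|`.  But `g ≥ 0` and `g x₀ = 1`. -/
def DL2Stmt : Prop := ∀ (N k r M : ℕ) (T0 T1 B : Fin M → BF N) (K : Finset (Fin N))
  (ρ : Fin N → Bool), K.card = k → 5 * r < k →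
  (∀ j x (I : Finset (Fin N)), I ⊆ K → I.card = r + 1 → dv I (ind (T0 j)) (ov K ρ x) = 0 ∧
    dv I (ind (T1 j)) (ov K ρ x) = 0 ∧ dv I (ind (B j)) (ov K ρ x) = 0) →
  ¬ ∀ x, ∃ j, (if B j x then T1 j x else T0 j x) = false ∧
    (∀ i < j, (if B i x then T1 i x else T0 i x) = true) ∧ B j x = par x

/-! ## D. Assembly -/

/-- **NU2** (150 lines).  The parameters: `c = 10^(-8)`, `X = c n² / s`; if `M = 0` take `q = k = 1`,
`κ = 1`; otherwise `X > 1`, `q = ⌊10 X⌋`, `k = 5q`, `κ² = q / (2 s)`.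
PROOF.  `(2/κ)^q exp (κ² s) = ((4/κ²) e)^(q/2) = (8 e s / q)^(q/2)`; `C(k,q)/C(n,q) ≤ (k/n)^q`
(`k ≤ n`: `C(k,q) n^q ≤ C(n,q) k^q`, factor by factor or induction on `q`).  So it is enough that
`3 M (32 · (5 q / n) · √(8 e s / q))^q < 1`; the base is `160 √(8 e) √(q s) / n ≤ 747 √(10^(-7)) < 1/4`
(`q ≤ 10 X = 10^(-7) n²/s`), and `3 M 4^(-q) < (3/2) 2^X 4^(-q) < 1` since `q > 10 X - 1 ≥ 9 X`.
`k = 5 q ≤ 5 · 10^(-7) n²/s ≤ n` (`n ≤ s`).  `5 (q - 1) < k` clear. -/
def NU2Stmt : Prop := ∃ c : ℝ, 0 < c ∧ ∀ n s M : ℕ, 1 ≤ n → n ≤ s →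
  2 * (M : ℝ) < (2 : ℝ) ^ (c * (n : ℝ) ^ 2 / s) →
  ∃ (q k : ℕ) (κ : ℝ), 0 < κ ∧ 1 ≤ q ∧ q ≤ k ∧ k ≤ n ∧ 5 * (q - 1) < k ∧
    2 ^ k * (k.choose q : ℝ) * ((3 * M) * (2 ^ n * ((2 / κ) ^ q * Real.exp (κ ^ 2 * s)))) <
      2 ^ n * (n.choose q : ℝ)

/-- **PBK** (80 lines).  A formula of quadratic size for the parity of the variables `a, …, a + b - 1`.
PROOF.  Strong induction on `b`: `b = 1`: `var a`.  `b ≥ 2`: halves `P`, `Q` of lengths `⌈b/2⌉`, `⌊b/2⌋` and
`or (and P (neg Q)) (and (neg P) Q)`, size `2|P| + 2|Q| + 5 ≤ 12 (h₁² + h₂²) - 15 ≤ 6 b² - 5`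
(`2 (h₁² + h₂²) ≤ b² + 1`).  `px σ (a + b) = xor (px σ a) (parity of the block)`. -/
def PBKStmt : Prop := ∀ a b : ℕ, 1 ≤ b → ∃ P : PF, P.size + 5 ≤ 6 * b ^ 2 ∧
  (∀ v ∈ P.vars, a ≤ v ∧ v < a + b) ∧
  ∀ σ : ℕ → Bool, P.eval σ = xor (px σ (a + b)) (px σ a)

/-- **UPP** (250 lines; uses PBK).  The bound is sharp: refutations with `2^m` reductions of formulas with
at most `C n² / m` symbols.
PROOF.  Cut `0, …, n-1` in `m` consecutive blocks with at most `b = ⌈n/m⌉ ≤ 2n/m` elements (block `j` is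
`[j n/m, (j+1) n/m)` with natural division, nonempty as `m ≤ n`); `P_j` from PBK.  For
`g : Fin m → Bool` let `A_g = ⋀_j (P_j or ¬P_j according to g j)` and
`L_g = (¬A_g) ∨ (z or ¬z according to ⊕g : z if ⊕g is false, ¬z if ⊕g is true)`; size
`≤ m (6 b² + 4) + 10 ≤ 40 n²/m`.  `L_g` follows semantically from the clauses of the matrix (they force
`z = ¬ parity`), so by one sound rule with identical substitution (`φ.sub var = φ`).  Reduction with
`B = cst (⊕g)`: the new line is `¬A_g ∨ (false)`, false at `σ` iff `A_g` is true at `σ`.  After the `2^m`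
reductions one sound rule gives `cst false` (for every `σ` the `g` with `g j = ` value of `P_j` has
`A_g` true).  Induction over the list of all `g`. -/
def UPPStmt : Prop := ∃ C : ℕ, ∀ n m : ℕ, 1 ≤ m → m ≤ n → ∃ (s : ℕ) (Λ : List PF),
  Ref (QPar n) {r | r.Sound} s Λ (2 ^ m) ∧ PF.cst false ∈ Λ ∧ s * m ≤ C * n ^ 2

/-- **FI2** (120 lines; uses NQB GR2 DL2 NU2 and EXT PFM SZQ FLS of FUR).  The theorem.
PROOF.  Suppose `2 k < 2^(c₀ |Φ|²/s)` for a refutation with `k` reductions, `c₀ = c/34²`, so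
`2 k < 2^(c n²/s)` (`|Φ| ≤ 34 n`), `n ≤ |Φ| ≤ s`; EXT gives `L`, `B : Fin k → PF`;
`T0 j x = (L j).eval (asg x false)`, `T1 j x = (L j).eval (asg x true)`,
`B' j x = (B j).eval (asg x false)`: all have `LC _ s` (PFM, monotone).  NU2 (`M = k`), NQB for each of
the `3 k` functions give the hypothesis of GR2 (indices `Fin (3 * k)` or `finProdFinEquiv`), GR2 gives
`K`, `ρ`, and DL2 (with `r = q - 1`) the contradiction. -/
def FI2Stmt : Prop := ∃ c : ℝ, 0 < c ∧ ∀ n : ℕ, 1 ≤ n →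
  (QPar n).Closed ∧ ¬ (QPar n).IsTrue ∧ n ≤ (QPar n).size ∧ (QPar n).size ≤ 34 * n ∧
  ∀ R : Set Rule, (∀ r ∈ R, r.Sound) → ∀ (s : ℕ) (Λ : List PF) (k : ℕ),
    (QPar n).size ≤ s → Ref (QPar n) R s Λ k → PF.cst false ∈ Λ →
    (2 : ℝ) ^ (c * ((QPar n).size : ℝ) ^ 2 / s) ≤ 2 * k

end Pool.Agent.FU2
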